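import Pool.Agent.MP_e23604_nt.W.All1
import Pool.Agent.MP_e23604_nt.W.All4a
import Pool.Agent.MP_e23604_nt.W.EAll
import Pool.Agent.MP_e23604_nt.W.Mat
import Pool.Agent.MP_e23604_nt.W.Loc
import Pool.Agent.MP_e23604_nt.W.NNT
import Pool.Agent.MP_e23604_nt.W.NLAM
import Pool.Agent.MP_e23604_nt.W.NHBR
import Pool.Agent.MP_e23604_nt.W.NSRP
import Pool.Agent.MP_e23604_nt.W.NCHR
import Pool.Agent.MP_e23604_nt.W.NBOT
import Pool.Agent.MP_e23604_nt.W.NIDZ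
import Pool.Agent.MP_e23604_nt.W.NEUL
import Pool.Agent.MP_e23604_nt.W.NRCS
import Pool.Agent.MP_e23604_nt.W.NGON
import Pool.Agent.MP_e23604_nt.W.NAUX
import Pool.Agent.MP_e23604_nt.W.NZST
import Pool.Agent.MP_e23604_nt.W.NSYS
import Pool.Agent.MP_e23604_nt.W.NRAM
import Pool.Agent.MP_e23604_nt.W.NRNM
import Pool.Agent.MP_e23604_nt.W.NBIN
import Pool.Agent.MP_e23604_nt.W.NPCK

/-!
The divisibility of the Euler system at three: assembly.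
-/

set_option autoImplicit false

namespace Pool.Agent.MP_e23604_nt.W

theorem LOW_of (hKM : KM_st) (hPLK : PLK_st) (hFRK : FRK_st) (hTAME : TAME_st) (hTPR : TPR_st)
    (hCNJ : CNJ_st) (hLIN : LIN_st) (hKGEN : KGEN_st) (hBRN : BRN_st) (hR2 : R2_st)
    (hFIH : FIH_st) : LOW_st :=
  LOW_pf (PRES_pf (KOCH_pf hTPR hR2 hKGEN hCNJ hPLK hLIN) (NUL_pf hBRN hFIH hPLK) hKGEN hPLK)
    hKGEN hPLK hFRK hTAME hKM

theorem NT_of (hKM : KM_st) (hPLK : PLK_st) (hFRK : FRK_st) (hCHB : CHB_st) (hTAME : TAME_st)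
    (hTPR : TPR_st) (hCNJ : CNJ_st) (hLIN : LIN_st) (hRCC : RCC_st) (hCYL : CYL_st)
    (hKGEN : KGEN_st) (hBRN : BRN_st) (hR2 : R2_st) (hDM4 : DM4_st) (hNDG : NDG_st)
    (hFIH : FIH_st) (hFUN : FUN_st) : NT_st := by
  have hS := SURJ_of hPLK hFRK
  have hC := CYC1_of hCHB hKM
  have hCHR := CHR_pf PS_ok hCYL hC INE_ok hPLK
  have hAUX := AUX_pf hPLK INE_ok hTAME hCHB hFRK PS_ok hC
  have hRAM := RAM_pf hTPR hTAME hPLK hFRK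
  have hRNM := RNM_pf CYG_ok hS
  exact NT_pf LM_ok
    (PCK_pf hKGEN hPLK hFRK hTAME (LOCW_pf hDM4 hNDG hFUN hKM)
      (GON_pf hCHR hBRN hKGEN hS PS_ok INE_ok) hCHR)
    (SYS_pf hCHR hAUX (MAT_pf (KOCH_pf hTPR hR2 hKGEN hCNJ hPLK hLIN) (NUL_pf hBRN hFIH hPLK) hKGEN
      hPLK hTPR hCNJ) (DRO_pf hTPR hCNJ) (RCS_pf hRCC hRAM hCNJ hCHR hAUX hPLK) hPLK)
    (EUL_pf (KOL_of THI_ok NRM1_ok UNIT_ok CONG_ok FRB_ok INE_ok CYG_ok CARD_ok (RAMQ_of hPLK) hFRK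
      hTAME) THI_ok UNIT_ok CYG_ok hCHR hAUX)
    (IDZ_pf IDN_ok THI_ok hS PS_ok hCHR)
    (LAM_pf (ZST_pf (SRP_pf hRNM NRM1_ok THI_ok FRB_ok PS_ok CYG_ok) hPLK PS_ok)
      (BOT_pf hRNM NRM1_ok TH0_ok THI_ok hKM PI_ok PS_ok) (BIN_pf hCYL) hCHR hKM hS PS_ok hPLK hCYL)
    (HBR_pf (LZ_of hCHB hKM) hRAM hCNJ CYG_ok hS INE_ok PS_ok hPLK) TOP_ok hAUX CYG_ok

end Pool.Agent.MP_e23604_nt.W
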